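import Mathlib
import Pool.Agent.WFA.Ash

namespace Pool.Agent.Results.MP_be1be6_an.AshleyEight

/-- `A` is shift equivalent over the nonnegative integers to the `1 × 1` matrix `(n)`. -/
def ShiftEq {k : ℕ} (A : Matrix (Fin k) (Fin k) ℕ) (n : ℕ) : Prop :=
  ∃ ℓ : ℕ, 1 ≤ ℓ ∧ ∃ R : Matrix (Fin k) (Fin 1) ℕ, ∃ S : Matrix (Fin 1) (Fin k) ℕ,
    A ^ ℓ = R * S ∧
    (Matrix.of (fun _ _ => n) : Matrix (Fin 1) (Fin 1) ℕ) ^ ℓ = S * R ∧
    A * R = R * (Matrix.of (fun _ _ => n) : Matrix (Fin 1) (Fin 1) ℕ) ∧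
    S * A = (Matrix.of (fun _ _ => n) : Matrix (Fin 1) (Fin 1) ℕ) * S

/-- `A` is strong shift equivalent over the nonnegative integers to the `1 × 1` matrix `(n)`: a finite
chain of elementary equivalences `X = R S`, `Y = S R` leads from `A` to `(n)`. -/
def StrongShiftEq {k : ℕ} (A : Matrix (Fin k) (Fin k) ℕ) (n : ℕ) : Prop :=
  Relation.TransGen
    (fun X Y : (Σ k : ℕ, Matrix (Fin k) (Fin k) ℕ) =>
      ∃ R : Matrix (Fin X.1) (Fin Y.1) ℕ, ∃ S : Matrix (Fin Y.1) (Fin X.1) ℕ,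
        X.2 = R * S ∧ Y.2 = S * R)
    ⟨k, A⟩ ⟨1, (Matrix.of (fun _ _ => n) : Matrix (Fin 1) (Fin 1) ℕ)⟩

/-- Ashley's eight by eight matrix: the sum of the permutation matrices of `(12345678)` and
`(1)(2)(374865)`. -/
def ashley : Matrix (Fin 8) (Fin 8) ℕ :=
  !![1, 1, 0, 0, 0, 0, 0, 0;
     0, 1, 1, 0, 0, 0, 0, 0;
     0, 0, 0, 1, 0, 0, 1, 0;
     0, 0, 0, 0, 1, 0, 0, 1;
     0, 0, 1, 0, 0, 1, 0, 0;
     0, 0, 0, 0, 1, 0, 1, 0;
     0, 0, 0, 1, 0, 0, 0, 1;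
     1, 0, 0, 0, 0, 1, 0, 0]

/-- The code of the transposed matrix used by the checked chain. -/
theorem mx_ash : Pool.Agent.WFA.mx 8 Pool.Agent.WFA.ashL = ashley.transpose := by
  ext i j
  fin_cases i <;> fin_cases j <;> rfl

theorem mx_two : Pool.Agent.WFA.mx 1 [[2]] = (Matrix.of (fun _ _ => 2) : Matrix (Fin 1) (Fin 1) ℕ) := by
  ext i j
  fin_cases i
  fin_cases j
  rfl

theorem tr : StrongShiftEq ashley.transpose 2 := by
  have h := Pool.Agent.WFA.okc_sse _ _ _ Pool.Agent.WFA.ash_ok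
  have h1 : Pool.Agent.WFA.mx Pool.Agent.WFA.ashL.length Pool.Agent.WFA.ashL = ashley.transpose :=
    mx_ash
  have h2 : Pool.Agent.WFA.mx [[2]].length [[2]] =
      (Matrix.of (fun _ _ => 2) : Matrix (Fin 1) (Fin 1) ℕ) := mx_two
  rw [h1, h2] at h
  exact h

/-- Ashley's matrix is shift equivalent to `(2)`, and it is strong shift equivalent to `(2)`; so is its
transpose. -/
theorem result : ShiftEq ashley 2 ∧ StrongShiftEq ashley 2 ∧ StrongShiftEq ashley.transpose 2 := by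
  refine ⟨⟨6, by norm_num, Matrix.of fun _ _ => 8, Matrix.of fun _ _ => 1, ?_, ?_, ?_, ?_⟩,
    Pool.Agent.WFA.sse_tr tr, tr⟩ <;> decide +kernel

end Pool.Agent.Results.MP_be1be6_an.AshleyEight
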