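import Mathlib
import Pool.Agent.WFS.FlagMain

namespace Pool.Agent.Results.MP_be1be6_an.NearRankOne

/-- `A` is shift equivalent over the nonnegative integers to the `1 × 1` matrix `(n)`. -/
def ShiftEq {k : ℕ} (A : Matrix (Fin k) (Fin k) ℕ) (n : ℕ) : Prop :=
  ∃ ℓ : ℕ, 1 ≤ ℓ ∧ ∃ R : Matrix (Fin k) (Fin 1) ℕ, ∃ S : Matrix (Fin 1) (Fin k) ℕ,
    A ^ ℓ = R * S ∧
    (Matrix.of (fun _ _ => n) : Matrix (Fin 1) (Fin 1) ℕ) ^ ℓ = S * R ∧
    A * R = R * (Matrix.of (fun _ _ => n) : Matrix (Fin 1) (Fin 1) ℕ) ∧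
    S * A = (Matrix.of (fun _ _ => n) : Matrix (Fin 1) (Fin 1) ℕ) * S

/-- `A` is strong shift equivalent over the nonnegative integers to the `1 × 1` matrix `(n)`: a finite
chain of elementary equivalences `X = R S`, `Y = S R` leads from `A` to `(n)`. -/
def StrongShiftEq {k : ℕ} (A : Matrix (Fin k) (Fin k) ℕ) (n : ℕ) : Prop :=
  Relation.TransGen
    (fun X Y : (Σ k : ℕ, Matrix (Fin k) (Fin k) ℕ) =>
      ∃ R : Matrix (Fin X.1) (Fin Y.1) ℕ, ∃ S : Matrix (Fin Y.1) (Fin X.1) ℕ,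
        X.2 = R * S ∧ Y.2 = S * R)
    ⟨k, A⟩ ⟨1, (Matrix.of (fun _ _ => n) : Matrix (Fin 1) (Fin 1) ℕ)⟩

/-- For every flag of rational subspaces from `ℚ^k` to the line of a positive integer vector `u` there is a
constant `C` such that every nonnegative integer matrix `A` which is shift equivalent to `(n)`, moves
each member of the flag into the next one, and differs from a matrix `u g^T` of rank one by entries of
absolute value at most `g_l / C` for all `l`, is strong shift equivalent to `(n)`. -/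
theorem result (k s : ℕ) (u : Fin k → ℕ) (hu : ∀ i, 1 ≤ u i)
    (V : ℕ → Submodule ℚ (Fin k → ℚ)) (h0 : V 0 = ⊤)
    (hs : V s = Submodule.span ℚ {fun i => (u i : ℚ)}) (hV : ∀ i, V (i + 1) ≤ V i) :
    ∃ C : ℕ, ∀ (n : ℕ) (A : Matrix (Fin k) (Fin k) ℕ) (g : Fin k → ℕ), 1 ≤ n →
      (∀ i < s, ∀ x ∈ V i, (A.map (Nat.cast : ℕ → ℚ)).mulVec x ∈ V (i + 1)) →
      (∀ i j l, (C : ℤ) * |(A i j : ℤ) - u i * g j| ≤ g l) →
      ShiftEq A n → StrongShiftEq A n := by
  rcases Nat.eq_zero_or_pos k with hk | hk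
  · subst hk
    refine ⟨0, fun n A g hn _ _ hse => ?_⟩
    obtain ⟨v, hv, -⟩ := Pool.Agent.WFS.ev_of_se hn A hse
    exact absurd (funext fun i => i.elim0) hv
  · have hcq : (fun i => (u i : ℚ)) = Pool.Agent.WFS.cq (fun i => (u i : ℤ)) := by
      funext i
      show (u i : ℚ) = (((u i : ℕ) : ℤ) : ℚ)
      push_cast
      rfl
    rw [hcq] at hs
    obtain ⟨C, hC⟩ := Pool.Agent.WFS.flag_sse hk (fun i => (u i : ℤ))
      (fun i => by exact_mod_cast hu i) V h0 hs hV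
    exact ⟨C, fun n A g hn hA hg hse => Pool.Agent.WFS.finish hn A
      (Pool.Agent.WFS.ev_of_se hn A hse) (hC A g hA hg)⟩

end Pool.Agent.Results.MP_be1be6_an.NearRankOne
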