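import Mathlib
import Pool.Agent.WFR.Rk2M

namespace Pool.Agent.Results.MP_be1be6_an.OneSide

/-- `A` is shift equivalent over the nonnegative integers to the `1 × 1` matrix `(n)`. -/
def ShiftEq {k : ℕ} (A : Matrix (Fin k) (Fin k) ℕ) (n : ℕ) : Prop :=
  ∃ ℓ : ℕ, 1 ≤ ℓ ∧ ∃ R : Matrix (Fin k) (Fin 1) ℕ, ∃ S : Matrix (Fin 1) (Fin k) ℕ,
    A ^ ℓ = R * S ∧
    (Matrix.of (fun _ _ => n) : Matrix (Fin 1) (Fin 1) ℕ) ^ ℓ = S * R ∧
    A * R = R * (Matrix.of (fun _ _ => n) : Matrix (Fin 1) (Fin 1) ℕ) ∧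
    S * A = (Matrix.of (fun _ _ => n) : Matrix (Fin 1) (Fin 1) ℕ) * S

/-- `A` is strong shift equivalent over the nonnegative integers to the `1 × 1` matrix `(n)`: a finite
chain of elementary equivalences `X = R S`, `Y = S R` leads from `A` to `(n)`. -/
def StrongShiftEq {k : ℕ} (A : Matrix (Fin k) (Fin k) ℕ) (n : ℕ) : Prop :=
  Relation.TransGen
    (fun X Y : (Σ k : ℕ, Matrix (Fin k) (Fin k) ℕ) =>
      ∃ R : Matrix (Fin X.1) (Fin Y.1) ℕ, ∃ S : Matrix (Fin Y.1) (Fin X.1) ℕ,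
        X.2 = R * S ∧ Y.2 = S * R)
    ⟨k, A⟩ ⟨1, (Matrix.of (fun _ _ => n) : Matrix (Fin 1) (Fin 1) ℕ)⟩

/-- There are a nonnegative integral left eigenvector `c` of `A` for `n`, an integral vector `v` with
`c v = 1` and `a = A v ≥ 0`, and an integral functional `lam` with `lam a = 0` which is nonnegative
on all columns of `A` and vanishes on the column `j` only if this column is `c_j a`: all columns of `A`
lie on one side of the line of `a`. -/
def OneSided {k : ℕ} (A : Matrix (Fin k) (Fin k) ℕ) (n : ℕ) : Prop :=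
  ∃ (c : Fin k → ℕ) (v lam : Fin k → ℤ),
    (∀ j, ∑ i, c i * A i j = n * c j) ∧
    ∑ j, (c j : ℤ) * v j = 1 ∧
    (∀ i, 0 ≤ ∑ l, (A i l : ℤ) * v l) ∧
    ∑ i, lam i * ∑ l, (A i l : ℤ) * v l = 0 ∧
    (∀ j, 0 ≤ ∑ i, lam i * (A i j : ℤ)) ∧
    ∀ j, ∑ i, lam i * (A i j : ℤ) = 0 → ∀ i, (A i j : ℤ) = c j * ∑ l, (A i l : ℤ) * v l

/-- Not used in the result, recorded as an example: if all column sums of `A` are equal, then `A` is
one-sided. -/
theorem oneSided_of_const {k n : ℕ} (hn : 1 ≤ n) (A : Matrix (Fin k) (Fin k) ℕ)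
    (hr : (A.map (Nat.cast : ℕ → ℚ)).rank ≤ 2) (hse : ShiftEq A n)
    (hs : ∀ j j', ∑ i, A i j = ∑ i, A i j') : OneSided A n := by
  obtain ⟨w, x, j1, h1, h2, h3, h4⟩ := Pool.Agent.WFR.const_line hn A hr hse hs
  have hv : ∀ i, ∑ l, (A i l : ℤ) * (Pi.single j1 (1 : ℤ) : Fin k → ℤ) l = A i j1 := by
    intro i
    rw [Finset.sum_eq_single j1]
    · rw [Pi.single_eq_same, mul_one]
    · intro b _ hb
      rw [Pi.single_eq_of_ne hb, mul_zero]
    · intro h
      exact absurd (Finset.mem_univ _) h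
  obtain ⟨q, hq⟩ : ∃ q : ℤ, q = ∑ l, w l * (A l j1 : ℤ) := ⟨_, rfl⟩
  have hlam : ∀ j, ∑ i, ((n : ℤ) * w i - q) * (A i j : ℤ) = n * (∑ i, w i * w i) * x j := by
    intro j
    have e1 : ∀ i, ((n : ℤ) * w i - q) * (A i j : ℤ) =
        n * (w i * (A i j1 : ℤ)) + n * (w i * w i) * x j - q * (A i j : ℤ) := by
      intro i
      rw [h1 i j]
      ring
    rw [Finset.sum_congr rfl fun i _ => e1 i, Finset.sum_sub_distrib, Finset.sum_add_distrib,
      ← Finset.mul_sum, ← Finset.mul_sum, ← Finset.sum_mul, ← Finset.mul_sum, ← hq]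
    have e2 : ((∑ i, A i j : ℕ) : ℤ) = (n : ℤ) := by rw [h2 j]
    push_cast at e2
    rw [e2]
    ring
  refine ⟨fun _ => 1, Pi.single j1 1, fun i => n * w i - q, fun j => by simpa using h2 j,
    by simp, fun i => by rw [hv]; exact Int.natCast_nonneg _, ?_, fun j => ?_, fun j hj i => ?_⟩
  · rw [Finset.sum_congr rfl fun i _ => by rw [hv i], hlam j1, h3]
    simp
  · rw [hlam j]
    exact mul_nonneg (mul_nonneg (Int.natCast_nonneg _) (Finset.sum_nonneg fun i _ =>
      mul_self_nonneg _)) (Int.natCast_nonneg _)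
  · rw [hlam j] at hj
    rw [hv, h1 i j]
    rcases mul_eq_zero.1 hj with h | h
    · rcases mul_eq_zero.1 h with h' | h'
      · have : n = 0 := by exact_mod_cast h'
        omega
      · have hw := (Finset.sum_eq_zero_iff_of_nonneg fun i _ => mul_self_nonneg (w i)).1 h' i
          (Finset.mem_univ i)
        rw [mul_self_eq_zero.1 hw]
        simp
    · rw [h]
      simp

/-- Let `A` be a `k × k` nonnegative integer matrix with `k ≤ 3` or of rational rank at most two, and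
shift equivalent to `(n)`.  If `A` or its transpose is one-sided, then `A` is strong shift equivalent
to `(n)`. -/
theorem result {k n : ℕ} (hn : 1 ≤ n) (A : Matrix (Fin k) (Fin k) ℕ)
    (hA : k ≤ 3 ∨ (A.map (Nat.cast : ℕ → ℚ)).rank ≤ 2) (hse : ShiftEq A n)
    (h : OneSided A n ∨ OneSided A.transpose n) : StrongShiftEq A n := by
  have hrank : (A.map (Nat.cast : ℕ → ℚ)).rank ≤ 2 := by
    rcases hA with h | h
    · obtain ⟨N, -, R, S, hN, -, -, -⟩ := hse
      refine Pool.Agent.WFS.rank_of_pow (N := N) h A (fun i => (R i 0 : ℤ))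
        (fun j => (S 0 j : ℤ)) (fun i j => ?_)
      rw [hN, Matrix.mul_apply, Fin.sum_univ_one]
      push_cast
      rfl
    · exact h
  rcases h with ⟨c, v, lam, h1, h2, h3, h4, h5, h6⟩ | ⟨c, v, lam, h1, h2, h3, h4, h5, h6⟩
  · exact Pool.Agent.WFR.oneSide hn A hrank hse c h1 v h2 h3 lam h4 h5 h6
  · exact Pool.Agent.WFR.sse_of_tr A (Pool.Agent.WFR.oneSide hn A.transpose
      (Pool.Agent.WFR.rank_tr hrank) (Pool.Agent.WFR.SE.tr hse) c h1 v h2 h3 lam h4 h5 h6)

end Pool.Agent.Results.MP_be1be6_an.OneSide
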