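import Mathlib
import Pool.Agent.WFS.Two3

namespace Pool.Agent.Results.MP_be1be6_an.RankTwo

/-- `A` is shift equivalent over the nonnegative integers to the `1 × 1` matrix `(n)`. -/
def ShiftEq {k : ℕ} (A : Matrix (Fin k) (Fin k) ℕ) (n : ℕ) : Prop :=
  ∃ ℓ : ℕ, 1 ≤ ℓ ∧ ∃ R : Matrix (Fin k) (Fin 1) ℕ, ∃ S : Matrix (Fin 1) (Fin k) ℕ,
    A ^ ℓ = R * S ∧
    (Matrix.of (fun _ _ => n) : Matrix (Fin 1) (Fin 1) ℕ) ^ ℓ = S * R ∧
    A * R = R * (Matrix.of (fun _ _ => n) : Matrix (Fin 1) (Fin 1) ℕ) ∧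
    S * A = (Matrix.of (fun _ _ => n) : Matrix (Fin 1) (Fin 1) ℕ) * S

/-- `A` is strong shift equivalent over the nonnegative integers to the `1 × 1` matrix `(n)`: a finite
chain of elementary equivalences `X = R S`, `Y = S R` leads from `A` to `(n)`. -/
def StrongShiftEq {k : ℕ} (A : Matrix (Fin k) (Fin k) ℕ) (n : ℕ) : Prop :=
  Relation.TransGen
    (fun X Y : (Σ k : ℕ, Matrix (Fin k) (Fin k) ℕ) =>
      ∃ R : Matrix (Fin X.1) (Fin Y.1) ℕ, ∃ S : Matrix (Fin Y.1) (Fin X.1) ℕ,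
        X.2 = R * S ∧ Y.2 = S * R)
    ⟨k, A⟩ ⟨1, (Matrix.of (fun _ _ => n) : Matrix (Fin 1) (Fin 1) ℕ)⟩

/-- For all `k` and `E` there is an `n₀` such that for every `n ≥ n₀` every `k × k` nonnegative integer
matrix `A` with all entries at least `n / E`, which has at most three rows or rational rank at most
two, and which is shift equivalent to `(n)`, is strong shift equivalent to `(n)`. -/
theorem result (k E : ℕ) :
    ∃ n₀ : ℕ, ∀ n ≥ n₀, ∀ A : Matrix (Fin k) (Fin k) ℕ,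
      (k ≤ 3 ∨ (A.map (Nat.cast : ℕ → ℚ)).rank ≤ 2) →
      (∀ i j, n ≤ E * A i j) → ShiftEq A n → StrongShiftEq A n := by
  rcases Nat.eq_zero_or_pos k with hk | hk
  · subst hk
    refine ⟨1, fun n hn A _ _ hse => ?_⟩
    obtain ⟨v, hv, -⟩ := Pool.Agent.WFS.ev_of_se hn A hse
    exact absurd (funext fun i => i.elim0) hv
  · rcases Nat.eq_zero_or_pos E with hE | hE
    · subst hE
      refine ⟨1, fun n hn A _ hl _ => ?_⟩
      have h1 := hl ⟨0, hk⟩ ⟨0, hk⟩
      omega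
    · obtain ⟨n₀, h0⟩ := Pool.Agent.WFS.two hk E hE
      refine ⟨n₀ + 1, fun n hn A hA hl hse => ?_⟩
      have hn1 : 1 ≤ n := by omega
      have hev := Pool.Agent.WFS.ev_of_se hn1 A hse
      obtain ⟨N, -, R, S, hN, -, -, -⟩ := hse
      have hN' : ∀ i j, ((A ^ N) i j : ℤ) = (R i 0 : ℤ) * S 0 j := by
        intro i j
        rw [hN, Matrix.mul_apply, Fin.sum_univ_one]
        push_cast
        rfl
      have hrank : (A.map (Nat.cast : ℕ → ℚ)).rank ≤ 2 := by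
        rcases hA with h | h
        · exact Pool.Agent.WFS.rank_of_pow h A (fun i => (R i 0 : ℤ)) (fun j => (S 0 j : ℤ)) hN'
        · exact h
      refine Pool.Agent.WFS.finish hn1 A hev ?_
      rw [Pool.Agent.WFS.mt_zA]
      exact h0 n (by omega) A hl (Pool.Agent.WFS.upper hn1 A hl hev)
        (Pool.Agent.WFS.fac_of_rank A hrank)
        ⟨N, fun i => (R i 0 : ℤ), fun j => (S 0 j : ℤ), hN'⟩

end Pool.Agent.Results.MP_be1be6_an.RankTwo
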